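import Pool.Agent.L7h49.PM.Def2

set_option autoImplicit false

/-!
# Project PM, second half, part HOOK: joining two neighbouring tracks by an edge
-/

namespace Pool.Agent.L7h76.PM

open Pool.Agent.L7h49.PM

theorem coord_le (p q : E2) (i : Fin 2) : |p i - q i| ≤ ‖p - q‖ := by
  have h := PiLp.norm_apply_le (p := 2) (p - q) i
  simpa [Real.norm_eq_abs] using h

/-- The vertical segment. -/
def vseg (x a b : ℝ) : Set E2 := {p | p 0 = x ∧ a ≤ p 1 ∧ p 1 ≤ b}

theorem vseg_convex (x a b : ℝ) : Convex ℝ (vseg x a b) := by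
  intro p hp q hq s t hs ht hst
  obtain ⟨p0, p1, p2⟩ := hp
  obtain ⟨q0, q1, q2⟩ := hq
  refine ⟨?_, ?_, ?_⟩
  · show (s • p + t • q) 0 = x
    simp only [PiLp.add_apply, PiLp.smul_apply, smul_eq_mul, p0, q0]
    rw [← add_mul, hst, one_mul]
  · show a ≤ (s • p + t • q) 1
    simp only [PiLp.add_apply, PiLp.smul_apply, smul_eq_mul]
    have : a = s * a + t * a := by rw [← add_mul, hst, one_mul]
    rw [this]
    exact add_le_add (mul_le_mul_of_nonneg_left p1 hs) (mul_le_mul_of_nonneg_left q1 ht)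
  · show (s • p + t • q) 1 ≤ b
    simp only [PiLp.add_apply, PiLp.smul_apply, smul_eq_mul]
    have : b = s * b + t * b := by rw [← add_mul, hst, one_mul]
    rw [this]
    exact add_le_add (mul_le_mul_of_nonneg_left p2 hs) (mul_le_mul_of_nonneg_left q2 ht)

theorem pt0 (a b : ℝ) : (pt a b) 0 = a := by simp [pt]

theorem pt1 (a b : ℝ) : (pt a b) 1 = b := by simp [pt]

theorem pt_mem_vseg {x a b y : ℝ} (h1 : a ≤ y) (h2 : y ≤ b) : pt x y ∈ vseg x a b :=
  ⟨pt0 _ _, by rw [pt1]; exact h1, by rw [pt1]; exact h2⟩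

/-- Part HOOK. -/
theorem s_HOOK (h1 : S_CON) (h2 : S_ROUTE) (h3 : S_SPL) : S_HOOK := by
  intro V G f C hR t X eta B i j hst hij hnb
  have hC := hR.one
  have hne : i ≠ j := by
    rintro rfl
    exact lt_irrefl _ hij
  have hsep : ∀ k l, k ≠ l → eta k + 200 * C ≤ eta l ∨ eta l + 200 * C ≤ eta k := by
    intro k l hkl
    have := hst.sep k l hkl
    rcases le_abs.1 this with h | h
    · right; linarith
    · left; linarith
  obtain ⟨B', hsub, hst', hw, hlast⟩ := h2 V G f C hR t X (X + 100 * C) eta eta B hst le_rfl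
    (fun k => le_rfl) hsep
  obtain ⟨hcon, hnear⟩ := h1 V G f C hR (vseg (X + 40 * C) (eta i) (eta j))
  have hTcon := hcon (vseg_convex _ _ _).isPreconnected ⟨_, pt_mem_vseg le_rfl hij.le⟩
  set T : Set V := Fat G f C (vseg (X + 40 * C) (eta i) (eta j)) with hT
  have hTc : ∀ w ∈ T, X + 34 * C ≤ f w 0 ∧ f w 0 ≤ X + 46 * C ∧ eta i - 6 * C ≤ f w 1 ∧
      f w 1 ≤ eta j + 6 * C := by
    intro w hwT
    obtain ⟨p, ⟨p0, p1, p2⟩, hp⟩ := hnear w hwT
    have a0 := abs_le.1 ((coord_le (f w) p 0).trans hp)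
    have a1 := abs_le.1 ((coord_le (f w) p 1).trans hp)
    refine ⟨?_, ?_, ?_, ?_⟩ <;> linarith [a0.1, a0.2, a1.1, a1.2]
  have hTd : ∀ k, k ≠ i → k ≠ j → Disjoint T (B' k) := by
    intro k hki hkj
    rw [Set.disjoint_left]
    intro w hwT hwB
    obtain ⟨c1, c2, c3, c4⟩ := hTc w hwT
    rcases hw k w hwB with h | ⟨h5, h6⟩
    · have := (hst.right k w h).1
      linarith
    · rcases hnb k hki hkj with h | h
      · rcases hsep k i hki with h' | h' <;> linarith
      · rcases hsep k j hkj with h' | h' <;> linarith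
  have hmeet : ∀ k, eta i ≤ eta k → eta k ≤ eta j → (T ∩ B' k).Nonempty := by
    intro k hk1 hk2
    obtain ⟨u, hu⟩ := hR.net (pt (X + 40 * C) (eta k))
    refine ⟨u, ⟨u, ⟨_, pt_mem_vseg hk1 hk2, hu.le⟩, ?_⟩, ?_⟩
    · rw [SimpleGraph.dist_self]
      push_cast
      linarith
    · exact hlast k (X + 40 * C) u (by linarith) (by linarith) hu.le
  obtain ⟨Y, hYT, hYd, hYc, u, hu, v, hv, huv⟩ := h3 V G (B' j) (B' i) T hTcon
    (hmeet j hij.le le_rfl) (hmeet i le_rfl hij.le) (hst'.disj j i hne.symm) (hst'.conn j)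
  classical
  have hupj : Function.update B' j (B' j ∪ Y) j = B' j ∪ Y := Function.update_self _ _ _
  have hupk : ∀ k, k ≠ j → Function.update B' j (B' j ∪ Y) k = B' k :=
    fun k hk => Function.update_of_ne hk _ _
  have hup : ∀ k, B' k ⊆ Function.update B' j (B' j ∪ Y) k := by
    intro k
    by_cases hk : k = j
    · subst hk
      rw [hupj]
      exact Set.subset_union_left
    · rw [hupk k hk]
  have hYk : ∀ k, k ≠ j → Disjoint (B' j ∪ Y) (B' k) := by
    intro k hk
    rw [Set.disjoint_union_left]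
    refine ⟨hst'.disj j k (Ne.symm hk), ?_⟩
    by_cases hki : k = i
    · subst hki
      exact hYd
    · exact (hTd k hki hk).mono_left hYT
  refine ⟨Function.update B' j (B' j ∪ Y), fun k => (hsub k).trans (hup k),
    ⟨?_, ?_, hst'.sep, ?_, fun k w hkw => hup k (hst'.endp k w hkw)⟩, v, ?_, u, ?_, huv.symm⟩
  · intro k
    by_cases hk : k = j
    · subst hk
      rw [hupj]
      exact hYc
    · rw [hupk k hk]
      exact hst'.conn k
  · intro k l hkl
    by_cases hk : k = j
    · have hl : l ≠ j := fun h => hkl (hk.trans h.symm)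
      rw [hk, hupj, hupk l hl]
      exact hYk l hl
    · rw [hupk k hk]
      by_cases hl : l = j
      · rw [hl, hupj]
        exact (hYk k hk).symm
      · rw [hupk l hl]
        exact hst'.disj k l hkl
  · intro k w hkw
    by_cases hk : k = j
    · rw [hk, hupj] at hkw
      rcases hkw with h | h
      · rw [hk]
        exact hst'.right j w h
      · obtain ⟨c1, c2, c3, c4⟩ := hTc w (hYT h)
        refine ⟨by linarith, fun h' => ?_⟩
        exfalso
        linarith
    · rw [hupk k hk] at hkw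
      exact hst'.right k w hkw
  · rw [hupk i hne]
    exact hv
  · rw [hupj]
    exact hu

end Pool.Agent.L7h76.PM
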